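import Mathlib

/-!
# VC-dimension of `r`-neighbourhoods in unit-cube graphs

For every `r` there is a bound `f r` on the VC-dimension of the system of `r`-neighbourhoods of
any intersection graph of closed axis-parallel unit cubes in three-dimensional space.

Idea of the proof.  Let `s_1, ..., s_N` be shattered, and let `v_{ij}` be a vertex whose
`r`-neighbourhood contains exactly `s_i` and `s_j` among them.  Fix walks of length `r` from
`v_{ij}` to `s_i` and to `s_j`.  Ramsey's theorem makes all comparisons between coordinates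
homogeneous.  Each coordinate of the `t`-th point of the walks is then, as a function of the pair
`i < j`, ordered mainly by `i` (type `I`) or mainly by `j` (type `J`).  Since no walk may be
switched for another one, at each step at least two coordinates have the same type before and
after the step.  The walks that end in `s_i` must use type `I`, the walks that end in `s_j` must
use type `J`, and both start in `v_{ij}`, which has only three coordinates.
-/

namespace Pool.Agent.Results.MP_75f2a2_co.BoundedVC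

/-! ### Ramsey -/

theorem ramsey (κ : Type) [Finite κ] (m : ℕ) : ∀ n : ℕ, ∃ N : ℕ, ∀ (c : List ℕ → κ) (A : Finset ℕ),
    N ≤ A.card → ∃ B ⊆ A, n ≤ B.card ∧ ∃ k, ∀ l : List ℕ, l.length = m → l.Pairwise (· < ·) →
      (∀ y ∈ l, y ∈ B) → c l = k := by
  classical
  have := Fintype.ofFinite κ
  induction m with
  | zero =>
    intro n
    refine ⟨n, fun c A hA => ⟨A, subset_rfl, hA, c [], ?_⟩⟩
    intro l hl _ _
    rw [List.length_eq_zero_iff.1 hl]
  | succ m ih =>
    have endhom : ∀ L : ℕ, ∃ N : ℕ, ∀ (c : List ℕ → κ) (A : Finset ℕ), N ≤ A.card →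
        ∃ B ⊆ A, L ≤ B.card ∧ ∃ g : ℕ → κ, ∀ (x : ℕ) (l : List ℕ), l.length = m →
          (x :: l).Pairwise (· < ·) → (∀ y ∈ x :: l, y ∈ B) → c (x :: l) = g x := by
      intro L
      induction L with
      | zero =>
        refine ⟨0, fun c A _ => ⟨∅, Finset.empty_subset _, le_rfl, fun _ => c [], ?_⟩⟩
        intro x l _ _ h
        exact absurd (h x (by simp)) (by simp)
      | succ L ihL =>
        obtain ⟨N', hN'⟩ := ihL
        obtain ⟨N'', hN''⟩ := ih N'
        refine ⟨N'' + 1, fun c A hA => ?_⟩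
        have hne : A.Nonempty := by
          rw [← Finset.card_pos]; omega
        set x := A.min' hne with hx
        have hxA : x ∈ A := A.min'_mem hne
        have hcard : N'' ≤ (A.erase x).card := by
          rw [Finset.card_erase_of_mem hxA]; omega
        obtain ⟨B1, hB1, hB1c, k1, hk1⟩ := hN'' (fun l => c (x :: l)) (A.erase x) hcard
        obtain ⟨B2, hB2, hB2c, g2, hg2⟩ := hN' c B1 hB1c
        have hgt : ∀ y ∈ B2, x < y := by
          intro y hy
          have h1 := hB1 (hB2 hy)
          rw [Finset.mem_erase] at h1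
          have h2 : x ≤ y := A.min'_le y h1.2
          omega
        have hxB2 : x ∉ B2 := fun h => lt_irrefl _ (hgt x h)
        refine ⟨insert x B2, ?_, ?_, fun y => if y = x then k1 else g2 y, ?_⟩
        · intro y hy
          rw [Finset.mem_insert] at hy
          rcases hy with rfl | hy
          · exact hxA
          · exact Finset.mem_of_mem_erase (hB1 (hB2 hy))
        · rw [Finset.card_insert_of_notMem hxB2]; omega
        · intro y l hl hp hmem
          have hp' := List.pairwise_cons.1 hp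
          show c (y :: l) = if y = x then k1 else g2 y
          by_cases hyx : y = x
          · rw [if_pos hyx, hyx]
            have : ∀ z ∈ l, z ∈ B1 := by
              intro z hz
              have h1 := hmem z (by simp [hz])
              rw [Finset.mem_insert] at h1
              have h2 := hp'.1 z hz
              rcases h1 with h1 | h1
              · omega
              · exact hB2 h1
            exact hk1 l hl hp'.2 this
          · rw [if_neg hyx]
            have hyB : y ∈ B2 := by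
              have h1 := hmem y (by simp)
              rw [Finset.mem_insert] at h1
              exact h1.resolve_left hyx
            refine hg2 y l hl hp ?_
            intro z hz
            have h1 := hmem z hz
            rw [Finset.mem_insert] at h1
            rcases h1 with h1 | h1
            · exfalso
              rw [List.mem_cons] at hz
              rcases hz with hz | hz
              · exact hyx (hz ▸ h1)
              · have h2 := hp'.1 z hz
                have h3 := hgt y hyB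
                omega
            · exact h1
    intro n
    obtain ⟨N, hN⟩ := endhom (Fintype.card κ * n)
    refine ⟨N, fun c A hA => ?_⟩
    obtain ⟨B, hBA, hBc, g, hg⟩ := hN c A hA
    have : Nonempty κ := ⟨c []⟩
    obtain ⟨k, _, hk⟩ := Finset.exists_le_card_fiber_of_mul_le_card_of_maps_to
      (s := B) (t := (Finset.univ : Finset κ)) (f := g) (n := n)
      (fun _ _ => Finset.mem_univ _) Finset.univ_nonempty (by rw [Finset.card_univ]; exact hBc)
    refine ⟨B.filter (fun y => g y = k), (Finset.filter_subset _ _).trans hBA, hk, k, ?_⟩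
    intro l hl hp hmem
    match l, hl, hp, hmem with
    | x :: l', hl, hp, hmem =>
      have h1 : c (x :: l') = g x := by
        apply hg x l' (by simpa using hl) hp
        intro y hy
        exact (Finset.mem_filter.1 (hmem y hy)).1
      rw [h1]
      exact (Finset.mem_filter.1 (hmem x (by simp))).2

/-! ### Orders on pairs -/

def Cpos (a : ℕ → ℕ → ℝ) : Prop := ∀ i l j m, i < l → l < j → j < m → m < 6 → a i j < a l m
def Cneg (a : ℕ → ℕ → ℝ) : Prop := ∀ i l j m, i < l → l < j → j < m → m < 6 → a l m < a i j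
def Czero (a : ℕ → ℕ → ℝ) : Prop := ∀ i l j m, i < l → l < j → j < m → m < 6 → a i j = a l m
def Npos (a : ℕ → ℕ → ℝ) : Prop := ∀ i l m j, i < l → l < m → m < j → j < 6 → a i j < a l m
def Nneg (a : ℕ → ℕ → ℝ) : Prop := ∀ i l m j, i < l → l < m → m < j → j < 6 → a l m < a i j
def Nzero (a : ℕ → ℕ → ℝ) : Prop := ∀ i l m j, i < l → l < m → m < j → j < 6 → a i j = a l m

def TI (a : ℕ → ℕ → ℝ) : Prop := (Cpos a ∧ Npos a) ∨ (Cneg a ∧ Nneg a)
def TJ (a : ℕ → ℕ → ℝ) : Prop := (Cpos a ∧ Nneg a) ∨ (Cneg a ∧ Npos a)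

lemma Cpos_Cneg {a : ℕ → ℕ → ℝ} (h : Cpos a) (h' : Cneg a) : False := by
  have h1 := h 0 1 2 3 (by norm_num) (by norm_num) (by norm_num) (by norm_num)
  have h2 := h' 0 1 2 3 (by norm_num) (by norm_num) (by norm_num) (by norm_num)
  linarith

lemma Npos_Nneg {a : ℕ → ℕ → ℝ} (h : Npos a) (h' : Nneg a) : False := by
  have h1 := h 0 1 2 3 (by norm_num) (by norm_num) (by norm_num) (by norm_num)
  have h2 := h' 0 1 2 3 (by norm_num) (by norm_num) (by norm_num) (by norm_num)
  linarith

lemma TI_TJ {a : ℕ → ℕ → ℝ} (h : TI a) (h' : TJ a) : False := by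
  rcases h with ⟨h1, h2⟩ | ⟨h1, h2⟩ <;> rcases h' with ⟨h3, h4⟩ | ⟨h3, h4⟩
  · exact Npos_Nneg h2 h4
  · exact Cpos_Cneg h1 h3
  · exact Cpos_Cneg h3 h1
  · exact Npos_Nneg h4 h2

lemma Nzero_Cpos {a : ℕ → ℕ → ℝ} (h : Nzero a) (h' : Cpos a) : False := by
  have h1 := h 0 1 3 5 (by norm_num) (by norm_num) (by norm_num) (by norm_num)
  have h2 := h 0 2 4 5 (by norm_num) (by norm_num) (by norm_num) (by norm_num)
  have h3 := h' 1 2 3 4 (by norm_num) (by norm_num) (by norm_num) (by norm_num)
  linarith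

lemma Nzero_Cneg {a : ℕ → ℕ → ℝ} (h : Nzero a) (h' : Cneg a) : False := by
  have h1 := h 0 1 3 5 (by norm_num) (by norm_num) (by norm_num) (by norm_num)
  have h2 := h 0 2 4 5 (by norm_num) (by norm_num) (by norm_num) (by norm_num)
  have h3 := h' 1 2 3 4 (by norm_num) (by norm_num) (by norm_num) (by norm_num)
  linarith

lemma Czero_Npos {a : ℕ → ℕ → ℝ} (h : Czero a) (h' : Npos a) : False := by
  have h1 := h 0 2 4 5 (by norm_num) (by norm_num) (by norm_num) (by norm_num)
  have h2 := h 1 2 3 5 (by norm_num) (by norm_num) (by norm_num) (by norm_num)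
  have h3 := h' 0 1 3 4 (by norm_num) (by norm_num) (by norm_num) (by norm_num)
  linarith

lemma Czero_Nneg {a : ℕ → ℕ → ℝ} (h : Czero a) (h' : Nneg a) : False := by
  have h1 := h 0 2 4 5 (by norm_num) (by norm_num) (by norm_num) (by norm_num)
  have h2 := h 1 2 3 5 (by norm_num) (by norm_num) (by norm_num) (by norm_num)
  have h3 := h' 0 1 3 4 (by norm_num) (by norm_num) (by norm_num) (by norm_num)
  linarith

/-- Homogeneity of the comparison of values on crossing and on nested pairs. -/
def Hom (a : ℕ → ℕ → ℝ) : Prop :=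
  (Cpos a ∨ Cneg a ∨ Czero a) ∧ (Npos a ∨ Nneg a ∨ Nzero a)

section block
variable {a b : ℕ → ℕ → ℝ}

lemma blockC1 (hl : ∀ i j, i < j → j < 6 → b i j ≤ a i j + 1) (ha : Hom a) (hb : Hom b)
    (h : ∀ i l j m, i < l → l < j → j < m → m < 6 → a i j + 1 < b l m) :
    Cpos a ∧ ((TI a ∧ TI b) ∨ (TJ a ∧ TJ b)) := by
  have ca : Cpos a := by
    intro i l j m h1 h2 h3 h4
    have e1 := h i l j m h1 h2 h3 h4
    have e2 := hl l m (by omega) h4
    linarith
  have cb : Cpos b := by
    intro i l j m h1 h2 h3 h4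
    have e1 := h i l j m h1 h2 h3 h4
    have e2 := hl i j (by omega) (by omega)
    linarith
  refine ⟨ca, ?_⟩
  rcases ha.2 with na | na | na
  · rcases hb.2 with nb | nb | nb
    · exact Or.inl ⟨Or.inl ⟨ca, na⟩, Or.inl ⟨cb, nb⟩⟩
    · exfalso
      have e1 := na 0 1 3 5 (by norm_num) (by norm_num) (by norm_num) (by norm_num)
      have e2 := nb 0 2 4 5 (by norm_num) (by norm_num) (by norm_num) (by norm_num)
      have e3 := h 1 2 3 4 (by norm_num) (by norm_num) (by norm_num) (by norm_num)
      have e4 := hl 0 5 (by norm_num) (by norm_num)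
      linarith
    · exact (Nzero_Cpos nb cb).elim
  · rcases hb.2 with nb | nb | nb
    · exfalso
      have e1 := na 0 2 3 4 (by norm_num) (by norm_num) (by norm_num) (by norm_num)
      have e2 := nb 1 2 3 5 (by norm_num) (by norm_num) (by norm_num) (by norm_num)
      have e3 := h 0 1 4 5 (by norm_num) (by norm_num) (by norm_num) (by norm_num)
      have e4 := hl 2 3 (by norm_num) (by norm_num)
      linarith
    · exact Or.inr ⟨Or.inl ⟨ca, na⟩, Or.inl ⟨cb, nb⟩⟩
    · exact (Nzero_Cpos nb cb).elim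
  · exact (Nzero_Cpos na ca).elim

lemma blockC2 (hl : ∀ i j, i < j → j < 6 → b i j ≤ a i j + 1) (ha : Hom a) (hb : Hom b)
    (h : ∀ i l j m, i < l → l < j → j < m → m < 6 → a l m + 1 < b i j) :
    Cneg a ∧ ((TI a ∧ TI b) ∨ (TJ a ∧ TJ b)) := by
  have ca : Cneg a := by
    intro i l j m h1 h2 h3 h4
    have e1 := h i l j m h1 h2 h3 h4
    have e2 := hl i j (by omega) (by omega)
    linarith
  have cb : Cneg b := by
    intro i l j m h1 h2 h3 h4
    have e1 := h i l j m h1 h2 h3 h4
    have e2 := hl l m (by omega) h4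
    linarith
  refine ⟨ca, ?_⟩
  rcases ha.2 with na | na | na
  · rcases hb.2 with nb | nb | nb
    · exact Or.inr ⟨Or.inr ⟨ca, na⟩, Or.inr ⟨cb, nb⟩⟩
    · exfalso
      have e1 := na 0 2 4 5 (by norm_num) (by norm_num) (by norm_num) (by norm_num)
      have e2 := nb 0 1 3 5 (by norm_num) (by norm_num) (by norm_num) (by norm_num)
      have e3 := h 1 2 3 4 (by norm_num) (by norm_num) (by norm_num) (by norm_num)
      have e4 := hl 0 5 (by norm_num) (by norm_num)
      linarith
    · exact (Nzero_Cneg nb cb).elim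
  · rcases hb.2 with nb | nb | nb
    · exfalso
      have e1 := na 1 2 3 5 (by norm_num) (by norm_num) (by norm_num) (by norm_num)
      have e2 := nb 0 2 3 4 (by norm_num) (by norm_num) (by norm_num) (by norm_num)
      have e3 := h 0 1 4 5 (by norm_num) (by norm_num) (by norm_num) (by norm_num)
      have e4 := hl 2 3 (by norm_num) (by norm_num)
      linarith
    · exact Or.inl ⟨Or.inr ⟨ca, na⟩, Or.inr ⟨cb, nb⟩⟩
    · exact (Nzero_Cneg nb cb).elim
  · exact (Nzero_Cneg na ca).elim

lemma blockN1 (hl : ∀ i j, i < j → j < 6 → b i j ≤ a i j + 1) (ha : Hom a) (hb : Hom b)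
    (h : ∀ i l m j, i < l → l < m → m < j → j < 6 → a i j + 1 < b l m) :
    Npos a ∧ ((TI a ∧ TI b) ∨ (TJ a ∧ TJ b)) := by
  have na : Npos a := by
    intro i l m j h1 h2 h3 h4
    have e1 := h i l m j h1 h2 h3 h4
    have e2 := hl l m (by omega) (by omega)
    linarith
  have nb : Npos b := by
    intro i l m j h1 h2 h3 h4
    have e1 := h i l m j h1 h2 h3 h4
    have e2 := hl i j (by omega) (by omega)
    linarith
  refine ⟨na, ?_⟩
  rcases ha.1 with ca | ca | ca
  · rcases hb.1 with cb | cb | cb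
    · exact Or.inl ⟨Or.inl ⟨ca, na⟩, Or.inl ⟨cb, nb⟩⟩
    · exfalso
      have e1 := ca 0 1 3 5 (by norm_num) (by norm_num) (by norm_num) (by norm_num)
      have e2 := cb 0 2 3 4 (by norm_num) (by norm_num) (by norm_num) (by norm_num)
      have e3 := h 1 2 4 5 (by norm_num) (by norm_num) (by norm_num) (by norm_num)
      have e4 := hl 0 3 (by norm_num) (by norm_num)
      linarith
    · exact (Czero_Npos cb nb).elim
  · rcases hb.1 with cb | cb | cb
    · exfalso
      have e1 := ca 0 2 4 5 (by norm_num) (by norm_num) (by norm_num) (by norm_num)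
      have e2 := cb 1 2 3 5 (by norm_num) (by norm_num) (by norm_num) (by norm_num)
      have e3 := h 0 1 3 4 (by norm_num) (by norm_num) (by norm_num) (by norm_num)
      have e4 := hl 2 5 (by norm_num) (by norm_num)
      linarith
    · exact Or.inr ⟨Or.inr ⟨ca, na⟩, Or.inr ⟨cb, nb⟩⟩
    · exact (Czero_Npos cb nb).elim
  · exact (Czero_Npos ca na).elim

lemma blockN2 (hl : ∀ i j, i < j → j < 6 → b i j ≤ a i j + 1) (ha : Hom a) (hb : Hom b)
    (h : ∀ i l m j, i < l → l < m → m < j → j < 6 → a l m + 1 < b i j) :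
    Nneg a ∧ ((TI a ∧ TI b) ∨ (TJ a ∧ TJ b)) := by
  have na : Nneg a := by
    intro i l m j h1 h2 h3 h4
    have e1 := h i l m j h1 h2 h3 h4
    have e2 := hl i j (by omega) (by omega)
    linarith
  have nb : Nneg b := by
    intro i l m j h1 h2 h3 h4
    have e1 := h i l m j h1 h2 h3 h4
    have e2 := hl l m (by omega) (by omega)
    linarith
  refine ⟨na, ?_⟩
  rcases ha.1 with ca | ca | ca
  · rcases hb.1 with cb | cb | cb
    · exact Or.inr ⟨Or.inl ⟨ca, na⟩, Or.inl ⟨cb, nb⟩⟩
    · exfalso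
      have e1 := ca 0 2 3 4 (by norm_num) (by norm_num) (by norm_num) (by norm_num)
      have e2 := cb 0 1 3 5 (by norm_num) (by norm_num) (by norm_num) (by norm_num)
      have e3 := h 1 2 4 5 (by norm_num) (by norm_num) (by norm_num) (by norm_num)
      have e4 := hl 0 3 (by norm_num) (by norm_num)
      linarith
    · exact (Czero_Nneg cb nb).elim
  · rcases hb.1 with cb | cb | cb
    · exfalso
      have e1 := ca 1 2 3 5 (by norm_num) (by norm_num) (by norm_num) (by norm_num)
      have e2 := cb 0 2 4 5 (by norm_num) (by norm_num) (by norm_num) (by norm_num)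
      have e3 := h 0 1 3 4 (by norm_num) (by norm_num) (by norm_num) (by norm_num)
      have e4 := hl 2 5 (by norm_num) (by norm_num)
      linarith
    · exact Or.inl ⟨Or.inr ⟨ca, na⟩, Or.inr ⟨cb, nb⟩⟩
    · exact (Czero_Nneg cb nb).elim
  · exact (Czero_Nneg ca na).elim

end block


/-! ### One step -/

lemma TI_neg {a : ℕ → ℕ → ℝ} (h : TI (fun i j => -a i j)) : TI a := by
  rcases h with ⟨h1, h2⟩ | ⟨h1, h2⟩
  · right
    refine ⟨fun i l j m e1 e2 e3 e4 => ?_, fun i l m j e1 e2 e3 e4 => ?_⟩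
    · have := h1 i l j m e1 e2 e3 e4
      simp only at this; linarith
    · have := h2 i l m j e1 e2 e3 e4
      simp only at this; linarith
  · left
    refine ⟨fun i l j m e1 e2 e3 e4 => ?_, fun i l m j e1 e2 e3 e4 => ?_⟩
    · have := h1 i l j m e1 e2 e3 e4
      simp only at this; linarith
    · have := h2 i l m j e1 e2 e3 e4
      simp only at this; linarith

lemma TJ_neg {a : ℕ → ℕ → ℝ} (h : TJ (fun i j => -a i j)) : TJ a := by
  rcases h with ⟨h1, h2⟩ | ⟨h1, h2⟩
  · right
    refine ⟨fun i l j m e1 e2 e3 e4 => ?_, fun i l m j e1 e2 e3 e4 => ?_⟩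
    · have := h1 i l j m e1 e2 e3 e4
      simp only at this; linarith
    · have := h2 i l m j e1 e2 e3 e4
      simp only at this; linarith
  · left
    refine ⟨fun i l j m e1 e2 e3 e4 => ?_, fun i l m j e1 e2 e3 e4 => ?_⟩
    · have := h1 i l j m e1 e2 e3 e4
      simp only at this; linarith
    · have := h2 i l m j e1 e2 e3 e4
      simp only at this; linarith

lemma Hom_neg {a : ℕ → ℕ → ℝ} (h : Hom a) : Hom (fun i j => -a i j) := by
  obtain ⟨h1, h2⟩ := h
  refine ⟨?_, ?_⟩
  · rcases h1 with h1 | h1 | h1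
    · right; left
      intro i l j m e1 e2 e3 e4
      have := h1 i l j m e1 e2 e3 e4
      simp only; linarith
    · left
      intro i l j m e1 e2 e3 e4
      have := h1 i l j m e1 e2 e3 e4
      simp only; linarith
    · right; right
      intro i l j m e1 e2 e3 e4
      have := h1 i l j m e1 e2 e3 e4
      simp only; linarith
  · rcases h2 with h1 | h1 | h1
    · right; left
      intro i l j m e1 e2 e3 e4
      have := h1 i l j m e1 e2 e3 e4
      simp only; linarith
    · left
      intro i l j m e1 e2 e3 e4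
      have := h1 i l j m e1 e2 e3 e4
      simp only; linarith
    · right; right
      intro i l j m e1 e2 e3 e4
      have := h1 i l j m e1 e2 e3 e4
      simp only; linarith

/-- Data on one coordinate in one step, after choosing the sign. -/
structure Coord (a b a' b' : ℕ → ℕ → ℝ) : Prop where
  link : ∀ i j, i < j → j < 6 → b' i j ≤ a' i j + 1
  homa : Hom a'
  homb : Hom b'
  tia : TI a' → TI a
  tja : TJ a' → TJ a
  tib : TI b' → TI b
  tjb : TJ b' → TJ b
  up : ∀ i j k l, i < j → j < 6 → k < l → l < 6 → 1 < |b k l - a i j| → a' i j + 1 < b' k l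

lemma exists_coord (a b : ℕ → ℕ → ℝ) (hlink : ∀ i j, i < j → j < 6 → |b i j - a i j| ≤ 1)
    (ha : Hom a) (hb : Hom b)
    (ca : ∀ i j k l, i < j → j < 6 → k < l → l < 6 → |a i j - a k l| < 1)
    (cb : ∀ i j k l, i < j → j < 6 → k < l → l < 6 → |b i j - b k l| < 1) :
    ∃ a' b', Coord a b a' b' := by
  by_cases h : ∃ i j k l, i < j ∧ j < 6 ∧ k < l ∧ l < 6 ∧ a i j + 1 < b k l
  · refine ⟨a, b, ?_, ha, hb, id, id, id, id, ?_⟩
    · intro i j h1 h2
      have := abs_le.1 (hlink i j h1 h2)
      linarith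
    · intro i j k l h1 h2 h3 h4 h5
      obtain ⟨i', j', k', l', e1, e2, e3, e4, e5⟩ := h
      rcases lt_abs.1 h5 with h6 | h6
      · linarith
      · exfalso
        have f1 := abs_lt.1 (ca i j i' j' h1 h2 e1 e2)
        have f2 := abs_lt.1 (cb k l k' l' h3 h4 e3 e4)
        linarith
  · refine ⟨fun i j => -a i j, fun i j => -b i j, ?_, Hom_neg ha, Hom_neg hb, TI_neg, TJ_neg,
      TI_neg, TJ_neg, ?_⟩
    · intro i j h1 h2
      have := abs_le.1 (hlink i j h1 h2)
      linarith
    · intro i j k l h1 h2 h3 h4 h5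
      rcases lt_abs.1 h5 with h6 | h6
      · exfalso
        exact h ⟨i, j, k, l, h1, h2, h3, h4, by linarith⟩
      · linarith

/-- A homogeneous chain of functions on pairs. -/
structure Chain (r : ℕ) (G : ℕ → ℕ → ℕ → Fin 3 → ℝ) : Prop where
  hom : ∀ t ≤ r, ∀ c, Hom (fun i j => G t i j c)
  link : ∀ t < r, ∀ c, ∀ i j, i < j → j < 6 → |G (t + 1) i j c - G t i j c| ≤ 1
  cell : ∀ t ≤ r, ∀ c, ∀ i j k l, i < j → j < 6 → k < l → l < 6 → |G t i j c - G t k l c| < 1
  bC1 : ∀ t < r, ∃ c, ∀ i l j m, i < l → l < j → j < m → m < 6 → 1 < |G (t + 1) l m c - G t i j c|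
  bC2 : ∀ t < r, ∃ c, ∀ i l j m, i < l → l < j → j < m → m < 6 → 1 < |G (t + 1) i j c - G t l m c|
  bN1 : ∀ t < r, ∃ c, ∀ i l m j, i < l → l < m → m < j → j < 6 → 1 < |G (t + 1) l m c - G t i j c|
  bN2 : ∀ t < r, ∃ c, ∀ i l m j, i < l → l < m → m < j → j < 6 → 1 < |G (t + 1) i j c - G t l m c|

def TwoI (G : ℕ → ℕ → ℕ → Fin 3 → ℝ) (t : ℕ) : Prop :=
  ∃ c c' : Fin 3, c ≠ c' ∧ TI (fun i j => G t i j c) ∧ TI (fun i j => G t i j c')

def TwoJ (G : ℕ → ℕ → ℕ → Fin 3 → ℝ) (t : ℕ) : Prop :=
  ∃ c c' : Fin 3, c ≠ c' ∧ TJ (fun i j => G t i j c) ∧ TJ (fun i j => G t i j c')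

lemma TwoI_TwoJ {G : ℕ → ℕ → ℕ → Fin 3 → ℝ} {t : ℕ} (h : TwoI G t) (h' : TwoJ G t) : False := by
  obtain ⟨c, c', hc, h1, h2⟩ := h
  obtain ⟨d, d', hd, h3, h4⟩ := h'
  have : c = d ∨ c = d' ∨ c' = d ∨ c' = d' := by
    revert c c' d d'
    intro c c' hc _ _ d d' hd _ _
    clear * - hc hd
    revert c c' d d'
    decide
  rcases this with rfl | rfl | rfl | rfl
  · exact TI_TJ h1 h3
  · exact TI_TJ h1 h4
  · exact TI_TJ h2 h3
  · exact TI_TJ h2 h4

lemma Chain.step {r : ℕ} {G : ℕ → ℕ → ℕ → Fin 3 → ℝ} (h : Chain r G) (t : ℕ) (ht : t < r) :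
    (TwoI G t ∧ TwoI G (t + 1)) ∨ (TwoJ G t ∧ TwoJ G (t + 1)) := by
  have hco : ∀ c : Fin 3, ∃ a' b', Coord (fun i j => G t i j c) (fun i j => G (t + 1) i j c) a' b' := by
    intro c
    exact exists_coord _ _ (h.link t ht c) (h.hom t ht.le c) (h.hom (t + 1) ht c)
      (h.cell t ht.le c) (h.cell (t + 1) ht c)
  choose a' b' hab using hco
  obtain ⟨c1, h1⟩ := h.bC1 t ht
  obtain ⟨c2, h2⟩ := h.bC2 t ht
  obtain ⟨c3, h3⟩ := h.bN1 t ht
  obtain ⟨c4, h4⟩ := h.bN2 t ht
  obtain ⟨s1, t1⟩ := blockC1 (hab c1).link (hab c1).homa (hab c1).homb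
    (fun i l j m e1 e2 e3 e4 => (hab c1).up i j l m (by omega) (by omega) (by omega) e4
      (h1 i l j m e1 e2 e3 e4))
  obtain ⟨s2, t2⟩ := blockC2 (hab c2).link (hab c2).homa (hab c2).homb
    (fun i l j m e1 e2 e3 e4 => (hab c2).up l m i j (by omega) (by omega) (by omega) (by omega)
      (h2 i l j m e1 e2 e3 e4))
  obtain ⟨s3, t3⟩ := blockN1 (hab c3).link (hab c3).homa (hab c3).homb
    (fun i l m j e1 e2 e3 e4 => (hab c3).up i j l m (by omega) (by omega) (by omega) (by omega)
      (h3 i l m j e1 e2 e3 e4))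
  obtain ⟨s4, t4⟩ := blockN2 (hab c4).link (hab c4).homa (hab c4).homb
    (fun i l m j e1 e2 e3 e4 => (hab c4).up l m i j (by omega) (by omega) (by omega) (by omega)
      (h4 i l m j e1 e2 e3 e4))
  have n12 : c1 ≠ c2 := by
    rintro rfl
    exact Cpos_Cneg s1 s2
  have n34 : c3 ≠ c4 := by
    rintro rfl
    exact Npos_Nneg s3 s4
  have mkI : ∀ c c' : Fin 3, c ≠ c' → (TI (a' c) ∧ TI (b' c)) → (TI (a' c') ∧ TI (b' c')) →
      (TwoI G t ∧ TwoI G (t + 1)) := by
    intro c c' hc e e'
    exact ⟨⟨c, c', hc, (hab c).tia e.1, (hab c').tia e'.1⟩,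
      ⟨c, c', hc, (hab c).tib e.2, (hab c').tib e'.2⟩⟩
  have mkJ : ∀ c c' : Fin 3, c ≠ c' → (TJ (a' c) ∧ TJ (b' c)) → (TJ (a' c') ∧ TJ (b' c')) →
      (TwoJ G t ∧ TwoJ G (t + 1)) := by
    intro c c' hc e e'
    exact ⟨⟨c, c', hc, (hab c).tja e.1, (hab c').tja e'.1⟩,
      ⟨c, c', hc, (hab c).tjb e.2, (hab c').tjb e'.2⟩⟩
  rcases t1 with t1 | t1
  · rcases t2 with t2 | t2
    · exact Or.inl (mkI c1 c2 n12 t1 t2)
    · -- c1 is `I+`, c2 is `J-`
      have p1 : Npos (a' c1) := by
        rcases t1.1 with ⟨_, q⟩ | ⟨q, _⟩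
        · exact q
        · exact (Cpos_Cneg s1 q).elim
      have p2 : Npos (a' c2) := by
        rcases t2.1 with ⟨q, _⟩ | ⟨_, q⟩
        · exact (Cpos_Cneg q s2).elim
        · exact q
      have n14 : c1 ≠ c4 := by
        rintro rfl
        exact Npos_Nneg p1 s4
      have n24 : c2 ≠ c4 := by
        rintro rfl
        exact Npos_Nneg p2 s4
      rcases t4 with t4 | t4
      · exact Or.inl (mkI c1 c4 n14 t1 t4)
      · exact Or.inr (mkJ c2 c4 n24 t2 t4)
  · rcases t2 with t2 | t2
    · have p1 : Nneg (a' c1) := by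
        rcases t1.1 with ⟨_, q⟩ | ⟨q, _⟩
        · exact q
        · exact (Cpos_Cneg s1 q).elim
      have p2 : Nneg (a' c2) := by
        rcases t2.1 with ⟨q, _⟩ | ⟨_, q⟩
        · exact (Cpos_Cneg q s2).elim
        · exact q
      have n13 : c1 ≠ c3 := by
        rintro rfl
        exact Npos_Nneg s3 p1
      have n23 : c2 ≠ c3 := by
        rintro rfl
        exact Npos_Nneg s3 p2
      rcases t3 with t3 | t3
      · exact Or.inl (mkI c2 c3 n23 t2 t3)
      · exact Or.inr (mkJ c1 c3 n13 t1 t3)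
    · exact Or.inr (mkJ c1 c2 n12 t1 t2)

lemma Chain.down_I {r : ℕ} {G : ℕ → ℕ → ℕ → Fin 3 → ℝ} (h : Chain r G) (hr : TwoI G r) :
    ∀ s ≤ r, TwoI G (r - s) := by
  intro s
  induction s with
  | zero => intro _; exact hr
  | succ s ih =>
    intro hs
    have h1 := ih (by omega)
    have h2 := h.step (r - (s + 1)) (by omega)
    rw [show r - (s + 1) + 1 = r - s by omega] at h2
    rcases h2 with h2 | h2
    · exact h2.1
    · exact (TwoI_TwoJ h1 h2.2).elim

lemma Chain.down_J {r : ℕ} {G : ℕ → ℕ → ℕ → Fin 3 → ℝ} (h : Chain r G) (hr : TwoJ G r) :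
    ∀ s ≤ r, TwoJ G (r - s) := by
  intro s
  induction s with
  | zero => intro _; exact hr
  | succ s ih =>
    intro hs
    have h1 := ih (by omega)
    have h2 := h.step (r - (s + 1)) (by omega)
    rw [show r - (s + 1) + 1 = r - s by omega] at h2
    rcases h2 with h2 | h2
    · exact (TwoI_TwoJ h2.2 h1).elim
    · exact h2.1

/-- Two homogeneous chains that start together cannot end in a function of the smaller index and
in a function of the larger index. -/
theorem no_chains (r : ℕ) (hr : 1 ≤ r) (P Q : ℕ → ℕ → ℕ → Fin 3 → ℝ) (s : ℕ → Fin 3 → ℝ)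
    (hP : Chain r P) (hQ : Chain r Q) (h0 : ∀ i j, i < j → j < 6 → P 0 i j = Q 0 i j)
    (eP : ∀ i j, i < j → j < 6 → P r i j = s i) (eQ : ∀ i j, i < j → j < 6 → Q r i j = s j) :
    False := by
  have nJ : ∀ c, ¬ TJ (fun i j => P r i j c) := by
    intro c h
    rcases h with ⟨h1, h2⟩ | ⟨h1, h2⟩
    · have e1 := h1 0 1 2 3 (by norm_num) (by norm_num) (by norm_num) (by norm_num)
      have e2 := h2 0 1 2 3 (by norm_num) (by norm_num) (by norm_num) (by norm_num)
      simp only [eP 0 2 (by norm_num) (by norm_num), eP 1 3 (by norm_num) (by norm_num),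
        eP 0 3 (by norm_num) (by norm_num), eP 1 2 (by norm_num) (by norm_num)] at e1 e2
      linarith
    · have e1 := h1 0 1 2 3 (by norm_num) (by norm_num) (by norm_num) (by norm_num)
      have e2 := h2 0 1 2 3 (by norm_num) (by norm_num) (by norm_num) (by norm_num)
      simp only [eP 0 2 (by norm_num) (by norm_num), eP 1 3 (by norm_num) (by norm_num),
        eP 0 3 (by norm_num) (by norm_num), eP 1 2 (by norm_num) (by norm_num)] at e1 e2
      linarith
  have nI : ∀ c, ¬ TI (fun i j => Q r i j c) := by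
    intro c h
    rcases h with ⟨h1, h2⟩ | ⟨h1, h2⟩
    · have e1 := h1 0 1 2 3 (by norm_num) (by norm_num) (by norm_num) (by norm_num)
      have e2 := h2 0 1 2 3 (by norm_num) (by norm_num) (by norm_num) (by norm_num)
      simp only [eQ 0 2 (by norm_num) (by norm_num), eQ 1 3 (by norm_num) (by norm_num),
        eQ 0 3 (by norm_num) (by norm_num), eQ 1 2 (by norm_num) (by norm_num)] at e1 e2
      linarith
    · have e1 := h1 0 1 2 3 (by norm_num) (by norm_num) (by norm_num) (by norm_num)
      have e2 := h2 0 1 2 3 (by norm_num) (by norm_num) (by norm_num) (by norm_num)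
      simp only [eQ 0 2 (by norm_num) (by norm_num), eQ 1 3 (by norm_num) (by norm_num),
        eQ 0 3 (by norm_num) (by norm_num), eQ 1 2 (by norm_num) (by norm_num)] at e1 e2
      linarith
  have hI : TwoI P r := by
    have h2 := hP.step (r - 1) (by omega)
    rw [show r - 1 + 1 = r by omega] at h2
    rcases h2 with h2 | h2
    · exact h2.2
    · obtain ⟨c, _, _, h3, _⟩ := h2.2
      exact (nJ c h3).elim
  have hJ : TwoJ Q r := by
    have h2 := hQ.step (r - 1) (by omega)
    rw [show r - 1 + 1 = r by omega] at h2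
    rcases h2 with h2 | h2
    · obtain ⟨c, _, _, h3, _⟩ := h2.2
      exact (nI c h3).elim
    · exact h2.2
  have k1 := hP.down_I hI r le_rfl
  have k2 := hQ.down_J hJ r le_rfl
  rw [Nat.sub_self] at k1 k2
  apply TwoI_TwoJ (G := P) (t := 0) k1
  obtain ⟨c, c', hc, h1, h2⟩ := k2
  have tr : ∀ c, TJ (fun i j => Q 0 i j c) → TJ (fun i j => P 0 i j c) := by
    intro c h
    rcases h with ⟨h1, h2⟩ | ⟨h1, h2⟩
    · left
      refine ⟨fun i l j m e1 e2 e3 e4 => ?_, fun i l m j e1 e2 e3 e4 => ?_⟩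
      · have := h1 i l j m e1 e2 e3 e4
        simp only at this ⊢
        rw [h0 i j (by omega) (by omega), h0 l m (by omega) (by omega)]
        exact this
      · have := h2 i l m j e1 e2 e3 e4
        simp only at this ⊢
        rw [h0 i j (by omega) (by omega), h0 l m (by omega) (by omega)]
        exact this
    · right
      refine ⟨fun i l j m e1 e2 e3 e4 => ?_, fun i l m j e1 e2 e3 e4 => ?_⟩
      · have := h1 i l j m e1 e2 e3 e4
        simp only at this ⊢
        rw [h0 i j (by omega) (by omega), h0 l m (by omega) (by omega)]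
        exact this
      · have := h2 i l m j e1 e2 e3 e4
        simp only at this ⊢
        rw [h0 i j (by omega) (by omega), h0 l m (by omega) (by omega)]
        exact this
  exact ⟨c, c', hc, tr c h1, tr c' h2⟩


/-! ### From raw data to homogeneous chains -/

/-- Chains indexed by pairs `i < j < N`. -/
structure Raw (r N : ℕ) (H : ℕ → ℕ → ℕ → Fin 3 → ℝ) (z : Fin 3 → ℝ) : Prop where
  link : ∀ t < r, ∀ i j, i < j → j < N → ∀ c, |H (t + 1) i j c - H t i j c| ≤ 1
  bdd : ∀ t ≤ r, ∀ i j, i < j → j < N → ∀ c, |H t i j c - z c| ≤ 3 * r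
  blk : ∀ t < r, ∀ i j k l, i < j → j < N → k < l → l < N → i ≠ k → i ≠ l → j ≠ k → j ≠ l →
    ∃ c, 1 < |H (t + 1) k l c - H t i j c|

/-- The tests made on a quadruple. -/
abbrev Tests (r : ℕ) : Type :=
  (Prop × Prop × Prop × Prop) × (Prop × Prop × Prop × Prop) × Fin (12 * r + 1)

/-- The outcome of the tests on the quadruple `a < b < c < d`. -/
noncomputable def tests (r : ℕ) (H : ℕ → ℕ → ℕ → Fin 3 → ℝ) (z : Fin 3 → ℝ) (t : ℕ) (e : Fin 3)
    (a b c d : ℕ) : Tests r :=
  ((H t a c e < H t b d e, H t b d e < H t a c e, H t a d e < H t b c e, H t b c e < H t a d e),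
   (1 < |H (t + 1) b d e - H t a c e|, 1 < |H (t + 1) a c e - H t b d e|,
    1 < |H (t + 1) b c e - H t a d e|, 1 < |H (t + 1) a d e - H t b c e|),
   ⟨(⌊2 * (H t a b e - z e)⌋ + 6 * r).toNat % (12 * r + 1), Nat.mod_lt _ (Nat.succ_pos _)⟩)

lemma cell_close {r : ℕ} {x y z : ℝ} (hx : |x - z| ≤ 3 * r) (hy : |y - z| ≤ 3 * r)
    (h : (⌊2 * (x - z)⌋ + 6 * r).toNat % (12 * r + 1) = (⌊2 * (y - z)⌋ + 6 * r).toNat % (12 * r + 1)) :
    |x - y| < 1 := by
  have b : ∀ x : ℝ, |x - z| ≤ 3 * r → -(6 * (r : ℤ)) ≤ ⌊2 * (x - z)⌋ ∧ ⌊2 * (x - z)⌋ ≤ 6 * (r : ℤ) := by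
    intro x hx
    have h1 := abs_le.1 hx
    constructor
    · rw [Int.le_floor]; push_cast; linarith
    · have h2 : ⌊2 * (x - z)⌋ < 6 * (r : ℤ) + 1 := by
        rw [Int.floor_lt]; push_cast; linarith
      omega
  have bx := b x hx
  have bY := b y hy
  rw [Nat.mod_eq_of_lt (by omega), Nat.mod_eq_of_lt (by omega)] at h
  have h1 : ⌊2 * (x - z)⌋ = ⌊2 * (y - z)⌋ := by omega
  have h2 := Int.floor_le (2 * (x - z))
  have h3 := Int.lt_floor_add_one (2 * (x - z))
  have h4 := Int.floor_le (2 * (y - z))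
  have h5 := Int.lt_floor_add_one (2 * (y - z))
  rw [h1] at h2 h3
  rw [abs_lt]
  constructor <;> linarith

lemma chain_of_raw {r N : ℕ} {H : ℕ → ℕ → ℕ → Fin 3 → ℝ} {z : Fin 3 → ℝ} (hH : Raw r N H z)
    (x : ℕ → ℕ) (hx : ∀ i j, i < j → j < 8 → x i < x j) (hxN : ∀ i, i < 8 → x i < N)
    (K : Fin (r + 1) → Fin 3 → Tests r)
    (hK : ∀ (t : Fin (r + 1)) (e : Fin 3) (a b c d : ℕ), a < b → b < c → c < d → d < 8 →
      tests r H z t e (x a) (x b) (x c) (x d) = K t e) :
    Chain r (fun t i j => H t (x i) (x j)) := by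
  have key : ∀ t, t ≤ r → ∀ (e : Fin 3) (a b c d a' b' c' d' : ℕ), a < b → b < c → c < d → d < 8 →
      a' < b' → b' < c' → c' < d' → d' < 8 →
      tests r H z t e (x a) (x b) (x c) (x d) = tests r H z t e (x a') (x b') (x c') (x d') := by
    intro t ht e a b c d a' b' c' d' h1 h2 h3 h4 h5 h6 h7 h8
    rw [hK ⟨t, by omega⟩ e a b c d h1 h2 h3 h4, hK ⟨t, by omega⟩ e a' b' c' d' h5 h6 h7 h8]
  have blkq : ∀ t < r, ∀ i j k l, i < j → j < 8 → k < l → l < 8 → i ≠ k → i ≠ l → j ≠ k → j ≠ l →
      ∃ c, 1 < |H (t + 1) (x k) (x l) c - H t (x i) (x j) c| := by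
    intro t ht i j k l h1 h2 h3 h4 h5 h6 h7 h8
    have inj : ∀ p q, p < 8 → q < 8 → p ≠ q → x p ≠ x q := by
      intro p q hp hq hpq
      rcases lt_or_gt_of_ne hpq with h | h
      · exact (hx p q h hq).ne
      · exact (hx q p h hp).ne'
    exact hH.blk t ht _ _ _ _ (hx i j h1 h2) (hxN j h2) (hx k l h3 h4) (hxN l h4)
      (inj _ _ (by omega) (by omega) h5) (inj _ _ (by omega) (by omega) h6)
      (inj _ _ (by omega) (by omega) h7) (inj _ _ (by omega) (by omega) h8)
  refine ⟨?_, ?_, ?_, ?_, ?_, ?_, ?_⟩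
  · intro t ht c
    have k1 : ∀ i l j m, i < l → l < j → j < m → m < 8 →
        tests r H z t c (x i) (x l) (x j) (x m) = tests r H z t c (x 0) (x 1) (x 2) (x 3) :=
      fun i l j m h1 h2 h3 h4 => key t ht c i l j m 0 1 2 3 h1 h2 h3 h4 (by norm_num) (by norm_num)
        (by norm_num) (by norm_num)
    constructor
    · by_cases p1 : H t (x 0) (x 2) c < H t (x 1) (x 3) c
      · left
        intro i l j m h1 h2 h3 h4
        have := congrArg (fun q => q.1.1) (k1 i l j m h1 h2 h3 (by omega))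
        simp only [tests, eq_iff_iff] at this
        exact this.2 p1
      by_cases p2 : H t (x 1) (x 3) c < H t (x 0) (x 2) c
      · right; left
        intro i l j m h1 h2 h3 h4
        have := congrArg (fun q => q.1.2.1) (k1 i l j m h1 h2 h3 (by omega))
        simp only [tests, eq_iff_iff] at this
        exact this.2 p2
      right; right
      intro i l j m h1 h2 h3 h4
      have e1 := congrArg (fun q => q.1.1) (k1 i l j m h1 h2 h3 (by omega))
      have e2 := congrArg (fun q => q.1.2.1) (k1 i l j m h1 h2 h3 (by omega))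
      simp only [tests, eq_iff_iff] at e1 e2
      have f1 := fun h => p1 (e1.1 h)
      have f2 := fun h => p2 (e2.1 h)
      exact le_antisymm (not_lt.1 f2) (not_lt.1 f1)
    · by_cases p1 : H t (x 0) (x 3) c < H t (x 1) (x 2) c
      · left
        intro i l m j h1 h2 h3 h4
        have := congrArg (fun q => q.1.2.2.1) (k1 i l m j h1 h2 h3 (by omega))
        simp only [tests, eq_iff_iff] at this
        exact this.2 p1
      by_cases p2 : H t (x 1) (x 2) c < H t (x 0) (x 3) c
      · right; left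
        intro i l m j h1 h2 h3 h4
        have := congrArg (fun q => q.1.2.2.2) (k1 i l m j h1 h2 h3 (by omega))
        simp only [tests, eq_iff_iff] at this
        exact this.2 p2
      right; right
      intro i l m j h1 h2 h3 h4
      have e1 := congrArg (fun q => q.1.2.2.1) (k1 i l m j h1 h2 h3 (by omega))
      have e2 := congrArg (fun q => q.1.2.2.2) (k1 i l m j h1 h2 h3 (by omega))
      simp only [tests, eq_iff_iff] at e1 e2
      have f1 := fun h => p1 (e1.1 h)
      have f2 := fun h => p2 (e2.1 h)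
      exact le_antisymm (not_lt.1 f2) (not_lt.1 f1)
  · intro t ht c i j h1 h2
    exact hH.link t ht _ _ (hx i j h1 (by omega)) (hxN j (by omega)) c
  · intro t ht c i j k l h1 h2 h3 h4
    have e := congrArg (fun q => q.2.2) (key t ht c i j 6 7 k l 6 7 h1 h2 (by norm_num) (by norm_num)
      h3 h4 (by norm_num) (by norm_num))
    simp only [tests, Fin.mk.injEq] at e
    exact cell_close (hH.bdd t ht _ _ (hx i j h1 (by omega)) (hxN j (by omega)) c)
      (hH.bdd t ht _ _ (hx k l h3 (by omega)) (hxN l (by omega)) c) e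
  · intro t ht
    obtain ⟨c, hc⟩ := blkq t ht 0 2 1 3 (by norm_num) (by norm_num) (by norm_num) (by norm_num)
      (by norm_num) (by norm_num) (by norm_num) (by norm_num)
    refine ⟨c, fun i l j m h1 h2 h3 h4 => ?_⟩
    have e := congrArg (fun q => q.2.1.1) (key t ht.le c i l j m 0 1 2 3 h1 h2 h3 (by omega)
      (by norm_num) (by norm_num) (by norm_num) (by norm_num))
    simp only [tests, eq_iff_iff] at e
    exact e.2 hc
  · intro t ht
    obtain ⟨c, hc⟩ := blkq t ht 1 3 0 2 (by norm_num) (by norm_num) (by norm_num) (by norm_num)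
      (by norm_num) (by norm_num) (by norm_num) (by norm_num)
    refine ⟨c, fun i l j m h1 h2 h3 h4 => ?_⟩
    have e := congrArg (fun q => q.2.1.2.1) (key t ht.le c i l j m 0 1 2 3 h1 h2 h3 (by omega)
      (by norm_num) (by norm_num) (by norm_num) (by norm_num))
    simp only [tests, eq_iff_iff] at e
    exact e.2 hc
  · intro t ht
    obtain ⟨c, hc⟩ := blkq t ht 0 3 1 2 (by norm_num) (by norm_num) (by norm_num) (by norm_num)
      (by norm_num) (by norm_num) (by norm_num) (by norm_num)
    refine ⟨c, fun i l m j h1 h2 h3 h4 => ?_⟩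
    have e := congrArg (fun q => q.2.1.2.2.1) (key t ht.le c i l m j 0 1 2 3 h1 h2 h3 (by omega)
      (by norm_num) (by norm_num) (by norm_num) (by norm_num))
    simp only [tests, eq_iff_iff] at e
    exact e.2 hc
  · intro t ht
    obtain ⟨c, hc⟩ := blkq t ht 1 2 0 3 (by norm_num) (by norm_num) (by norm_num) (by norm_num)
      (by norm_num) (by norm_num) (by norm_num) (by norm_num)
    refine ⟨c, fun i l m j h1 h2 h3 h4 => ?_⟩
    have e := congrArg (fun q => q.2.1.2.2.2) (key t ht.le c i l m j 0 1 2 3 h1 h2 h3 (by omega)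
      (by norm_num) (by norm_num) (by norm_num) (by norm_num))
    simp only [tests, eq_iff_iff] at e
    exact e.2 hc

theorem combin (r : ℕ) (hr : 1 ≤ r) : ∃ N : ℕ, 0 < N ∧
    ∀ (P Q : ℕ → ℕ → ℕ → Fin 3 → ℝ) (s : ℕ → Fin 3 → ℝ) (z : Fin 3 → ℝ),
    Raw r N P z → Raw r N Q z → (∀ i j, i < j → j < N → P 0 i j = Q 0 i j) →
    (∀ i j, i < j → j < N → P r i j = s i) → (∀ i j, i < j → j < N → Q r i j = s j) → False := by
  obtain ⟨N, hN⟩ := ramsey ((Fin (r + 1) → Fin 3 → Tests r) × (Fin (r + 1) → Fin 3 → Tests r)) 4 8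
  refine ⟨N + 1, Nat.succ_pos _, ?_⟩
  intro P Q s z hP hQ h0 eP eQ
  let col : List ℕ → (Fin (r + 1) → Fin 3 → Tests r) × (Fin (r + 1) → Fin 3 → Tests r) := fun l =>
    (fun t e => tests r P z t e (l.getD 0 0) (l.getD 1 0) (l.getD 2 0) (l.getD 3 0),
     fun t e => tests r Q z t e (l.getD 0 0) (l.getD 1 0) (l.getD 2 0) (l.getD 3 0))
  obtain ⟨B, hB, hBc, k, hk⟩ := hN col (Finset.range (N + 1)) (by rw [Finset.card_range]; omega)
  let emb := B.orderEmbOfCardLe hBc
  have hemb : ∀ i, emb i ∈ B := fun i => B.orderEmbOfCardLe_mem hBc i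
  let x : ℕ → ℕ := fun i => if h : i < 8 then emb ⟨i, h⟩ else 0
  have hx : ∀ i j, i < j → j < 8 → x i < x j := by
    intro i j h1 h2
    have hi : i < 8 := by omega
    simp only [x, dif_pos hi, dif_pos h2]
    exact emb.strictMono (by simpa using h1)
  have hxB : ∀ i, i < 8 → x i ∈ B := by
    intro i hi
    simp only [x, dif_pos hi]
    exact hemb _
  have hxN : ∀ i, i < 8 → x i < N + 1 := fun i hi => Finset.mem_range.1 (hB (hxB i hi))
  have hcol : ∀ a b c d, a < b → b < c → c < d → d < 8 → col [x a, x b, x c, x d] = k := by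
    intro a b c d h1 h2 h3 h4
    apply hk
    · rfl
    · have e1 := hx a b h1 (by omega)
      have e2 := hx b c h2 (by omega)
      have e3 := hx c d h3 h4
      simp only [List.pairwise_cons, List.mem_cons, List.not_mem_nil, or_false, forall_eq_or_imp,
        forall_eq, List.Pairwise.nil, and_true, IsEmpty.forall_iff, implies_true]
      omega
    · intro y hy
      simp only [List.mem_cons, List.not_mem_nil, or_false] at hy
      rcases hy with rfl | rfl | rfl | rfl
      · exact hxB a (by omega)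
      · exact hxB b (by omega)
      · exact hxB c (by omega)
      · exact hxB d (by omega)
  have cP : Chain r (fun t i j => P t (x i) (x j)) := by
    apply chain_of_raw hP x hx hxN k.1
    intro t e a b c d h1 h2 h3 h4
    rw [← hcol a b c d h1 h2 h3 h4]
    rfl
  have cQ : Chain r (fun t i j => Q t (x i) (x j)) := by
    apply chain_of_raw hQ x hx hxN k.2
    intro t e a b c d h1 h2 h3 h4
    rw [← hcol a b c d h1 h2 h3 h4]
    rfl
  exact no_chains r hr _ _ (fun i => s (x i)) cP cQ
    (fun i j h1 h2 => h0 _ _ (hx i j h1 (by omega)) (hxN j (by omega)))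
    (fun i j h1 h2 => eP _ _ (hx i j h1 (by omega)) (hxN j (by omega)))
    (fun i j h1 h2 => eQ _ _ (hx i j h1 (by omega)) (hxN j (by omega)))


/-! ### Unit-cube graphs -/

/-- The closed axis-parallel cube of side length `1` in three-dimensional space with centre
`p`. -/
def cube (p : Fin 3 → ℝ) : Set (Fin 3 → ℝ) := {y | ∀ i, |y i - p i| ≤ 1 / 2}

/-- `G` is the intersection graph of a family of closed axis-parallel unit cubes in
three-dimensional space; the cube of the vertex `v` has centre `p v`. -/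
def IsUnitCubeGraph {V : Type} (G : SimpleGraph V) : Prop :=
  ∃ p : V → Fin 3 → ℝ, ∀ u v, G.Adj u v ↔ u ≠ v ∧ (cube (p u) ∩ cube (p v)).Nonempty

/-- The `r`-neighbourhood ball of `v`: all vertices at distance at most `r` from `v`. -/
def ball {V : Type} (G : SimpleGraph V) (r : ℕ) (v : V) : Set V := {u | G.edist v u ≤ (r : ℕ∞)}

/-- The set `S` of vertices is shattered by the `r`-neighbourhood balls. -/
def Shattered {V : Type} (G : SimpleGraph V) (r : ℕ) (S : Set V) : Prop :=
  ∀ T ⊆ S, ∃ v, ball G r v ∩ S = T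

/-- The VC-dimension of the system of `r`-neighbourhood balls: the largest size of a shattered
set. -/
noncomputable def VC {V : Type} (G : SimpleGraph V) (r : ℕ) : ℕ∞ :=
  ⨆ S ∈ {S : Set V | Shattered G r S}, S.encard

lemma cube_inter (a b : Fin 3 → ℝ) : (cube a ∩ cube b).Nonempty ↔ ∀ i, |a i - b i| ≤ 1 := by
  constructor
  · rintro ⟨y, h1, h2⟩ i
    have e1 := abs_le.1 (h1 i)
    have e2 := abs_le.1 (h2 i)
    rw [abs_le]
    constructor <;> linarith
  · intro h
    refine ⟨fun i => (a i + b i) / 2, fun i => ?_, fun i => ?_⟩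
    · have e := abs_le.1 (h i)
      rw [abs_le]
      constructor <;> linarith
    · have e := abs_le.1 (h i)
      rw [abs_le]
      constructor <;> linarith

section graph
variable {V : Type} {G : SimpleGraph V} {p : V → Fin 3 → ℝ}

lemma chain_of_edist (hG : ∀ u v, G.Adj u v ↔ u ≠ v ∧ (cube (p u) ∩ cube (p v)).Nonempty)
    {r : ℕ} {v u : V} (h : G.edist v u ≤ (r : ℕ∞)) :
    ∃ q : ℕ → V, q 0 = v ∧ q r = u ∧ ∀ t < r, ∀ c, |p (q (t + 1)) c - p (q t) c| ≤ 1 := by
  have hne : G.edist v u ≠ ⊤ := by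
    intro h'
    rw [h'] at h
    exact absurd h (by simp)
  obtain ⟨w, hw⟩ := SimpleGraph.exists_walk_of_edist_ne_top hne
  have hlen : w.length ≤ r := by
    rw [← hw] at h
    exact_mod_cast h
  refine ⟨w.getVert, w.getVert_zero, w.getVert_of_length_le hlen, ?_⟩
  intro t _ c
  by_cases h1 : t < w.length
  · have h2 := w.adj_getVert_succ h1
    have h3 := (cube_inter _ _).1 ((hG _ _).1 h2).2 c
    rwa [abs_sub_comm]
  · rw [w.getVert_of_length_le (by omega), w.getVert_of_length_le (by omega)]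
    simp

lemma edist_of_chain (hG : ∀ u v, G.Adj u v ↔ u ≠ v ∧ (cube (p u) ∩ cube (p v)).Nonempty)
    (r : ℕ) (q : ℕ → V) (h : ∀ t < r, ∀ c, |p (q (t + 1)) c - p (q t) c| ≤ 1) :
    G.edist (q 0) (q r) ≤ (r : ℕ∞) := by
  induction r with
  | zero => simp
  | succ r ih =>
    have h1 := ih (fun t ht => h t (by omega))
    have h2 : G.edist (q r) (q (r + 1)) ≤ 1 := by
      by_cases heq : q r = q (r + 1)
      · rw [← heq]; simp
      · have hadj : G.Adj (q r) (q (r + 1)) := by
          rw [hG]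
          refine ⟨heq, (cube_inter _ _).2 fun c => ?_⟩
          rw [abs_sub_comm]
          exact h r (by omega) c
        have := SimpleGraph.edist_le (SimpleGraph.Walk.cons hadj SimpleGraph.Walk.nil)
        simpa using this
    calc G.edist (q 0) (q (r + 1)) ≤ G.edist (q 0) (q r) + G.edist (q r) (q (r + 1)) :=
          SimpleGraph.edist_triangle
      _ ≤ (r : ℕ∞) + 1 := add_le_add h1 h2
      _ = ((r + 1 : ℕ) : ℕ∞) := by push_cast; rfl

lemma chain_dist (r : ℕ) (q : ℕ → V) (h : ∀ t < r, ∀ c, |p (q (t + 1)) c - p (q t) c| ≤ 1)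
    (c : Fin 3) : ∀ s ≤ r, |p (q (r - s)) c - p (q r) c| ≤ s := by
  intro s
  induction s with
  | zero => intro _; simp
  | succ s ih =>
    intro hs
    have h1 := ih (by omega)
    have h2 := h (r - (s + 1)) (by omega) c
    rw [show r - (s + 1) + 1 = r - s by omega] at h2
    have e1 := abs_le.1 h1
    have e2 := abs_le.1 h2
    push_cast
    rw [abs_le]
    constructor <;> linarith

end graph

/-- A shattered set has fewer than `N` elements. -/
lemma shattered_small (r : ℕ) (hr : 1 ≤ r) : ∃ N : ℕ, ∀ (V : Type) (G : SimpleGraph V),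
    IsUnitCubeGraph G → ∀ S : Set V, Shattered G r S → S.encard ≤ N := by
  classical
  obtain ⟨N, hN0, hN⟩ := combin r hr
  refine ⟨N, fun V G hGG S hS => ?_⟩
  obtain ⟨p, hG⟩ := hGG
  by_contra hcon
  push Not at hcon
  obtain ⟨S', hS'S, hS'⟩ := Set.exists_subset_encard_eq hcon.le
  have hfin : S'.Finite := Set.finite_of_encard_eq_coe hS'
  have hcard : hfin.toFinset.card = N := by
    have := hfin.encard_eq_coe_toFinset_card
    rw [hS'] at this
    exact_mod_cast this.symm
  let em := hfin.toFinset.equivFinOfCardEq hcard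
  let s : ℕ → V := fun i => if h : i < N then (em.symm ⟨i, h⟩ : V) else (em.symm ⟨0, hN0⟩ : V)
  have hsS : ∀ i, i < N → s i ∈ S := by
    intro i hi
    simp only [s, dif_pos hi]
    exact hS'S (hfin.mem_toFinset.1 (em.symm ⟨i, hi⟩).2)
  have hsinj : ∀ i j, i < N → j < N → s i = s j → i = j := by
    intro i j hi hj h
    simp only [s, dif_pos hi, dif_pos hj] at h
    have h2 := em.symm.injective (Subtype.ext h)
    exact congrArg Fin.val h2
  have hv : ∀ i j, i < N → j < N → ∃ v, ball G r v ∩ S = {s i, s j} := by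
    intro i j hi hj
    apply hS
    intro u hu
    rcases hu with rfl | hu
    · exact hsS i hi
    · rw [Set.mem_singleton_iff.1 hu]; exact hsS j hj
  have hv' : ∀ i j, ∃ v, i < N → j < N → ball G r v ∩ S = {s i, s j} := by
    intro i j
    by_cases h : i < N ∧ j < N
    · obtain ⟨v, hv⟩ := hv i j h.1 h.2
      exact ⟨v, fun _ _ => hv⟩
    · exact ⟨s 0, fun h1 h2 => absurd ⟨h1, h2⟩ h⟩
  choose v hvv using hv'
  have hnear : ∀ i j, i < N → j < N → G.edist (v i j) (s i) ≤ (r : ℕ∞) := by
    intro i j hi hj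
    have : s i ∈ ball G r (v i j) ∩ S := by
      rw [hvv i j hi hj]; simp
    exact this.1
  have hnear' : ∀ i j, i < N → j < N → G.edist (v i j) (s j) ≤ (r : ℕ∞) := by
    intro i j hi hj
    have : s j ∈ ball G r (v i j) ∩ S := by
      rw [hvv i j hi hj]; simp
    exact this.1
  have hfar : ∀ i j k, i < N → j < N → k < N → k ≠ i → k ≠ j →
      ¬ G.edist (v i j) (s k) ≤ (r : ℕ∞) := by
    intro i j k hi hj hk h1 h2 h
    have : s k ∈ ball G r (v i j) ∩ S := ⟨h, hsS k hk⟩
    rw [hvv i j hi hj] at this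
    rcases this with h3 | h3
    · exact h1 (hsinj _ _ hk hi h3)
    · exact h2 (hsinj _ _ hk hj (Set.mem_singleton_iff.1 h3))
  have hP : ∀ i j, ∃ q : ℕ → V, i < N → j < N → q 0 = v i j ∧ q r = s i ∧
      ∀ t < r, ∀ c, |p (q (t + 1)) c - p (q t) c| ≤ 1 := by
    intro i j
    by_cases h : i < N ∧ j < N
    · obtain ⟨q, hq⟩ := chain_of_edist hG (hnear i j h.1 h.2)
      exact ⟨q, fun _ _ => hq⟩
    · exact ⟨fun _ => s 0, fun h1 h2 => absurd ⟨h1, h2⟩ h⟩
  have hQ : ∀ i j, ∃ q : ℕ → V, i < N → j < N → q 0 = v i j ∧ q r = s j ∧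
      ∀ t < r, ∀ c, |p (q (t + 1)) c - p (q t) c| ≤ 1 := by
    intro i j
    by_cases h : i < N ∧ j < N
    · obtain ⟨q, hq⟩ := chain_of_edist hG (hnear' i j h.1 h.2)
      exact ⟨q, fun _ _ => hq⟩
    · exact ⟨fun _ => s 0, fun h1 h2 => absurd ⟨h1, h2⟩ h⟩
  choose P hPP using hP
  choose Q hQQ using hQ
  -- switching chains is impossible
  have switch : ∀ (q q' : ℕ → V) (t : ℕ), t < r →
      (∀ t < r, ∀ c, |p (q (t + 1)) c - p (q t) c| ≤ 1) →
      (∀ t < r, ∀ c, |p (q' (t + 1)) c - p (q' t) c| ≤ 1) →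
      ¬ G.edist (q 0) (q' r) ≤ (r : ℕ∞) → ∃ c, 1 < |p (q' (t + 1)) c - p (q t) c| := by
    intro q q' t ht h1 h2 h3
    by_contra hc
    push Not at hc
    apply h3
    have h4 := edist_of_chain hG r (fun n => if n ≤ t then q n else q' n) (by
      intro n hn c
      by_cases e1 : n + 1 ≤ t
      · rw [if_pos e1, if_pos (by omega)]
        exact h1 n hn c
      · rw [if_neg e1]
        by_cases e2 : n ≤ t
        · rw [if_pos e2]
          have : n = t := by omega
          rw [this]
          exact hc c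
        · rw [if_neg e2]
          exact h2 n hn c)
    simp only [Nat.zero_le, if_true] at h4
    rw [if_neg (by omega)] at h4
    exact h4
  -- distances from the base point
  have hs0 : ∀ i, i < N → ∀ c, |p (s i) c - p (s 0) c| ≤ 2 * r := by
    intro i hi c
    obtain ⟨a0, a1, a2⟩ := hPP 0 i hN0 hi
    obtain ⟨b0, b1, b2⟩ := hQQ 0 i hN0 hi
    have e1 := chain_dist r (P 0 i) a2 c r le_rfl
    have e2 := chain_dist r (Q 0 i) b2 c r le_rfl
    rw [Nat.sub_self, a0, a1] at e1
    rw [Nat.sub_self, b0, b1] at e2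
    have f1 := abs_le.1 e1
    have f2 := abs_le.1 e2
    rw [abs_le]
    constructor <;> linarith
  refine hN (fun t i j => p (P i j t)) (fun t i j => p (Q i j t)) (fun i => p (s i)) (p (s 0))
    ⟨?_, ?_, ?_⟩ ⟨?_, ?_, ?_⟩ ?_ ?_ ?_
  · intro t ht i j h1 h2 c
    exact (hPP i j (by omega) h2).2.2 t ht c
  · intro t ht i j h1 h2 c
    obtain ⟨a0, a1, a2⟩ := hPP i j (by omega) h2
    have e1 := chain_dist r (P i j) a2 c (r - t) (by omega)
    rw [show r - (r - t) = t by omega, a1] at e1
    have e2 := hs0 i (by omega) c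
    have e3 : ((r - t : ℕ) : ℝ) ≤ r := by exact_mod_cast Nat.sub_le r t
    have f1 := abs_le.1 e1
    have f2 := abs_le.1 e2
    rw [abs_le]
    constructor <;> linarith
  · intro t ht i j k l h1 h2 h3 h4 n1 n2 n3 n4
    obtain ⟨a0, a1, a2⟩ := hPP i j (by omega) h2
    obtain ⟨b0, b1, b2⟩ := hPP k l (by omega) h4
    apply switch (P i j) (P k l) t ht a2 b2
    rw [a0, b1]
    exact hfar i j k (by omega) h2 (by omega) n1.symm n3.symm
  · intro t ht i j h1 h2 c
    exact (hQQ i j (by omega) h2).2.2 t ht c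
  · intro t ht i j h1 h2 c
    obtain ⟨a0, a1, a2⟩ := hQQ i j (by omega) h2
    have e1 := chain_dist r (Q i j) a2 c (r - t) (by omega)
    rw [show r - (r - t) = t by omega, a1] at e1
    have e2 := hs0 j h2 c
    have e3 : ((r - t : ℕ) : ℝ) ≤ r := by exact_mod_cast Nat.sub_le r t
    have f1 := abs_le.1 e1
    have f2 := abs_le.1 e2
    rw [abs_le]
    constructor <;> linarith
  · intro t ht i j k l h1 h2 h3 h4 n1 n2 n3 n4
    obtain ⟨a0, a1, a2⟩ := hQQ i j (by omega) h2
    obtain ⟨b0, b1, b2⟩ := hQQ k l (by omega) h4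
    apply switch (Q i j) (Q k l) t ht a2 b2
    rw [a0, b1]
    exact hfar i j l (by omega) h2 h4 n2.symm n4.symm
  · intro i j h1 h2
    show p (P i j 0) = p (Q i j 0)
    rw [(hPP i j (by omega) h2).1, (hQQ i j (by omega) h2).1]
  · intro i j h1 h2
    show p (P i j r) = p (s i)
    rw [(hPP i j (by omega) h2).2.1]
  · intro i j h1 h2
    show p (Q i j r) = p (s j)
    rw [(hQQ i j (by omega) h2).2.1]

lemma shattered_zero (V : Type) (G : SimpleGraph V) (S : Set V) (hS : Shattered G 0 S) :
    S.encard ≤ 1 := by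
  rw [Set.encard_le_one_iff]
  intro a b ha hb
  obtain ⟨v, hv⟩ := hS S subset_rfl
  have h1 : a ∈ ball G 0 v := by
    have : a ∈ ball G 0 v ∩ S := by rw [hv]; exact ha
    exact this.1
  have h2 : b ∈ ball G 0 v := by
    have : b ∈ ball G 0 v ∩ S := by rw [hv]; exact hb
    exact this.1
  simp only [ball, Set.mem_ofPred_eq, Nat.cast_zero, nonpos_iff_eq_zero,
    SimpleGraph.edist_eq_zero_iff] at h1 h2
  rw [← h1, ← h2]

/-- There is a function `f` with `VC_r(G) ≤ f r` for every `r` and every intersection graph `G`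
of closed axis-parallel unit cubes in three-dimensional space. -/
theorem result : ∃ f : ℕ → ℕ, ∀ (r : ℕ) (V : Type) (G : SimpleGraph V), IsUnitCubeGraph G →
    VC G r ≤ (f r : ℕ∞) := by
  have h : ∀ r : ℕ, ∃ N : ℕ, ∀ (V : Type) (G : SimpleGraph V),
      IsUnitCubeGraph G → ∀ S : Set V, Shattered G r S → S.encard ≤ N := by
    intro r
    by_cases hr : 1 ≤ r
    · exact shattered_small r hr
    · have : r = 0 := by omega
      subst this
      exact ⟨1, fun V G _ S hS => by simpa using shattered_zero V G S hS⟩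
  choose f hf using h
  refine ⟨f, fun r V G hG => ?_⟩
  exact iSup₂_le fun S hS => hf r V G hG S hS

end Pool.Agent.Results.MP_75f2a2_co.BoundedVC
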